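import Pool.Agent.H55.Suit2

namespace Pool.Agent.Results.MP_eb7acf_gt.NoSuitable

open Topology

/-- `S` is a suitable set for the (additively written) topological group `G`. -/
def Suitable {G : Type} [AddGroup G] [TopologicalSpace G] (S : Set G) : Prop :=
  IsDiscrete S ∧ IsClosed (insert (0 : G) S) ∧ Dense (AddSubgroup.closure S : Set G)

/-- every point has a neighbourhood base indexed antitonically by `ℕ → ℕ` (pointwise order) -/
def OmegaBase (X : Type) [TopologicalSpace X] : Prop :=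
  ∀ x : X, ∃ U : (ℕ → ℕ) → Set X, (𝓝 x).HasBasis (fun _ => True) U ∧
    ∀ a b : ℕ → ℕ, (∀ n, a n ≤ b n) → U b ⊆ U a

/-- generalized orderable: for some linear order, open rays are open and the open convex sets
form a base -/
def GO (X : Type) [TopologicalSpace X] : Prop :=
  ∃ _ : LinearOrder X, (∀ a : X, IsOpen (Set.Ioi a) ∧ IsOpen (Set.Iio a)) ∧
    TopologicalSpace.IsTopologicalBasis {U : Set X | IsOpen U ∧ U.OrdConnected}

theorem result : ∃ (G : Type) (_ : AddCommGroup G) (_ : TopologicalSpace G),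
    IsTopologicalAddGroup G ∧ T2Space G ∧ GO G ∧ OmegaBase G ∧ ∀ S : Set G, ¬ Suitable S := by
  obtain ⟨W, _, _, _, h1, h3, φ, hm, hc⟩ := Pool.Agent.H55.Suit.exists_W
  have := Pool.Agent.H55.Suit.orderTop h1
  refine ⟨Pool.Agent.H55.Suit.G W, inferInstance, inferInstance, inferInstance, inferInstance,
    ⟨inferInstance, fun a => ⟨isOpen_Ioi, isOpen_Iio⟩, ?_⟩,
    fun x => ?_, Pool.Agent.H55.Suit.G_no_suitable h1 h3⟩
  · refine TopologicalSpace.isTopologicalBasis_of_isOpen_of_nhds (fun u hu => hu.1)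
      fun x u hx hu => ?_
    obtain ⟨β, -, hβ⟩ := (Pool.Agent.H55.Suit.basis x).mem_iff.1 (hu.mem_nhds hx)
    exact ⟨_, ⟨isOpen_Ioo, Set.ordConnected_Ioo⟩,
      ⟨Pool.Agent.H55.Suit.sub_eG_lt x β, Pool.Agent.H55.Suit.lt_add_eG x β⟩,
      (Pool.Agent.H55.Suit.Ioo_sub x β).trans hβ⟩
  · obtain ⟨U, hU, ha⟩ := Pool.Agent.H55.Suit.omega_base φ hm hc x
    exact ⟨U, hU, fun a b h => ha h⟩

end Pool.Agent.Results.MP_eb7acf_gt.NoSuitable
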